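import Mathlib

/-! Telescoping along a finite chain. -/

namespace Pool.Agent.TH234.QH

open Finset

/-- If a quantity attached to neighbouring members of a chain is bounded by the increment of `J`,
then its sum over the chain is bounded by the total increment. -/
lemma chain {ι : Type*} [DecidableEq ι] (key p q J : ι → ℝ)
    (hinj : Function.Injective key)
    (hstep : ∀ x y, key x < key y → p x + q y ≤ J y - J x) (s : Finset ι) (hs : s.Nonempty) :
    ∀ i ∈ s, (∀ x ∈ s, key i ≤ key x) → ∀ a ∈ s, (∀ x ∈ s, key x ≤ key a) →
      ∑ x ∈ s.erase a, p x + ∑ x ∈ s.erase i, q x ≤ J a - J i := by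
  classical
  revert hs
  induction s using Finset.induction_on_max_value key with
  | empty => intro h; exact absurd h (by simp)
  | insert a s ha hmax ih =>
    intro _ i hi hmin b hb hmaxb
    have hba : b = a := by
      rcases Finset.mem_insert.1 hb with h | h
      · exact h
      · exact hinj (le_antisymm (hmax b h) (hmaxb a (Finset.mem_insert_self _ _)))
    subst hba
    rcases s.eq_empty_or_nonempty with h0 | h0
    · subst h0
      simp only [insert_empty_eq, Finset.mem_singleton] at hi
      subst hi
      simp
    · have hib : i ≠ b := by
        intro h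
        obtain ⟨x, hx⟩ := h0
        have h1 := hmin x (Finset.mem_insert_of_mem hx)
        rw [h] at h1
        have h2 := hinj (le_antisymm h1 (hmax x hx))
        exact ha (h2 ▸ hx)
      have his : i ∈ s := (Finset.mem_insert.1 hi).resolve_left hib
      obtain ⟨c, hc, hcmax⟩ := s.exists_max_image key h0
      have h1 := ih h0 i his (fun x hx => hmin x (Finset.mem_insert_of_mem hx)) c hc hcmax
      have hcb : c ≠ b := fun h => ha (h ▸ hc)
      have hlt : key c < key b := lt_of_le_of_ne (hmax c hc) (fun h => hcb (hinj h))
      have h2 := hstep c b hlt
      rw [Finset.erase_insert ha]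
      rw [Finset.erase_insert_of_ne (Ne.symm hib), Finset.sum_insert (by simp [ha])]
      rw [← Finset.add_sum_erase s p hc]
      linarith

end Pool.Agent.TH234.QH
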