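import Pool.Agent.TH234.QH.Orbit

/-! Finite families of closed orbits around the origin: the sum of the exponents. -/

open Set MeasureTheory Topology Filter intervalIntegral

namespace Pool.Agent.TH234.QH

open Pool.Agent.H811R2.Quad

noncomputable section

variable {G1 G2 G2' : ℝ → ℝ} {μ : ℝ}

lemma Jf_nonneg {β v : ℝ → ℝ} (h : PSol G1 G2 μ v) (h0 : ∀ θ, 0 ≤ β θ) : 0 ≤ Jf β G2 v := by
  unfold Jf
  apply intervalIntegral.integral_nonneg (by positivity)
  intro θ _
  exact div_nonneg (h0 θ) (h.pos' θ).le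

/-- the main inequalities for a finite family of periodic graphs -/
theorem family (hG1 : Continuous G1) (hG2 : ∀ θ, HasDerivAt G2 (G2' θ) θ)
    (hG2' : Continuous G2') (hper2 : ∀ θ, G2 (θ + 2 * Real.pi) = G2 θ)
    {ι : Type*} [Fintype ι] [DecidableEq ι] [Nonempty ι] (v : ι → ℝ → ℝ)
    (hv : ∀ i, PSol G1 G2 μ (v i)) (hinj : Function.Injective v) :
    ∃ i a : ι,
      ∑ j ∈ (Finset.univ.erase i).erase a, |Hf G1 G2 G2' μ (v j)| ≤
        min (Jf (fun θ => max (Bf G1 G2 G2' μ θ) 0) G2 (v a))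
          (Jf (fun θ => max (-Bf G1 G2 G2' μ θ) 0) G2 (v a)) ∧
      ∑ j ∈ Finset.univ.erase i, |Hf G1 G2 G2' μ (v j)| /
        (1 + Jf (fun θ => |Bf G1 G2 G2' μ θ|) G2 (v j)) ^ 2 ≤ 1 ∧
      ∑ j, |Hf G1 G2 G2' μ (v j)| ≤
        4 * Real.pi * |μ| + Jf (fun θ => |Bf G1 G2 G2' μ θ|) G2 (v a) := by
  have hG2c : Continuous G2 := continuous_iff_continuousAt.2 fun θ => (hG2 θ).continuousAt
  have hBc : Continuous (Bf G1 G2 G2' μ) := by unfold Bf; fun_prop
  set H : ι → ℝ := fun j => Hf G1 G2 G2' μ (v j) with hH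
  set key : ι → ℝ := fun j => -v j 0 with hkey
  have hkinj : Function.Injective key := by
    intro x y hxy
    by_contra hne
    have hne' : v x ≠ v y := fun h => hne (hinj h)
    have h0 : v x 0 = v y 0 := neg_injective hxy
    rcases (hv x).order hG1 hG2c (hv y) hne' with h | h
    · exact absurd (h 0) (by rw [h0]; exact lt_irrefl _)
    · exact absurd (h 0) (by rw [h0]; exact lt_irrefl _)
  have hord : ∀ x y, key x < key y → ∀ θ, v y θ < v x θ := by
    intro x y hxy
    have h0 : v y 0 < v x 0 := neg_lt_neg_iff.1 hxy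
    have hne : v x ≠ v y := fun h => by rw [h] at h0; exact lt_irrefl _ h0
    rcases (hv x).order hG1 hG2c (hv y) hne with h | h
    · exact absurd (h 0) (not_lt.2 h0.le)
    · exact h
  obtain ⟨i, -, hi⟩ := Finset.univ.exists_min_image key Finset.univ_nonempty
  obtain ⟨a, -, ha⟩ := Finset.univ.exists_max_image key Finset.univ_nonempty
  have hJc : Continuous fun θ => |Bf G1 G2 G2' μ θ| := hBc.abs
  have hinc : ∀ x y, key x < key y → |H y| ≤ Jf (fun θ => |Bf G1 G2 G2' μ θ|) G2 (v y) -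
      Jf (fun θ => |Bf G1 G2 G2' μ θ|) G2 (v x) := by
    intro x y hxy
    have d1 := step hG1 hG2 hG2' hper2 (hv x) (hv y) (hord x y hxy) hJc
      (fun θ => abs_nonneg _) (fun θ => le_abs_self _)
    have d2 := step' hG1 hG2 hG2' hper2 (hv x) (hv y) (hord x y hxy) hJc
      (fun θ => abs_nonneg _) (fun θ => neg_le_abs _)
    apply abs_le.2
    constructor
    · have := le_max_left (-Hf G1 G2 G2' μ (v y)) 0
      have := le_max_right (Hf G1 G2 G2' μ (v x)) 0
      show -(_ - _) ≤ Hf G1 G2 G2' μ (v y)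
      linarith
    · have := le_max_left (Hf G1 G2 G2' μ (v y)) 0
      have := le_max_right (-Hf G1 G2 G2' μ (v x)) 0
      show Hf G1 G2 G2' μ (v y) ≤ _ - _
      linarith
  refine ⟨i, a, ?_, ?_, ?_⟩
  · -- the two one-sided inequalities
    have c1 := chain key (fun j => max (H j) 0) (fun j => max (-H j) 0)
      (fun j => Jf (fun θ => max (Bf G1 G2 G2' μ θ) 0) G2 (v j)) hkinj
      (fun x y hxy => step hG1 hG2 hG2' hper2 (hv x) (hv y) (hord x y hxy)
        (hBc.max continuous_const) (fun θ => le_max_right _ _) (fun θ => le_max_left _ _))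
      Finset.univ Finset.univ_nonempty i (Finset.mem_univ _) hi a (Finset.mem_univ _) ha
    have c2 := chain key (fun j => max (-H j) 0) (fun j => max (H j) 0)
      (fun j => Jf (fun θ => max (-Bf G1 G2 G2' μ θ) 0) G2 (v j)) hkinj
      (fun x y hxy => step' hG1 hG2 hG2' hper2 (hv x) (hv y) (hord x y hxy)
        (hBc.neg.max continuous_const) (fun θ => le_max_right _ _) (fun θ => le_max_left _ _))
      Finset.univ Finset.univ_nonempty i (Finset.mem_univ _) hi a (Finset.mem_univ _) ha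
    have n1 := Jf_nonneg (hv i) (β := fun θ => max (Bf G1 G2 G2' μ θ) 0)
      (fun θ => le_max_right _ _)
    have n2 := Jf_nonneg (hv i) (β := fun θ => max (-Bf G1 G2 G2' μ θ) 0)
      (fun θ => le_max_right _ _)
    have habs : ∀ x : ℝ, |x| = max x 0 + max (-x) 0 := by
      intro x
      rcases le_total 0 x with h | h
      · rw [abs_of_nonneg h, max_eq_left h, max_eq_right (by linarith)]; ring
      · rw [abs_of_nonpos h, max_eq_right h, max_eq_left (by linarith)]; ring
    have e1 : ∑ j ∈ (Finset.univ.erase i).erase a, |H j| =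
        ∑ j ∈ (Finset.univ.erase i).erase a, max (H j) 0 +
          ∑ j ∈ (Finset.univ.erase i).erase a, max (-H j) 0 := by
      rw [← Finset.sum_add_distrib]
      exact Finset.sum_congr rfl fun j _ => habs _
    have s1 : (Finset.univ.erase i).erase a ⊆ Finset.univ.erase a := fun x hx => by
      simp only [Finset.mem_erase, Finset.mem_univ, and_true] at hx ⊢
      exact hx.1
    have s2 : (Finset.univ.erase i).erase a ⊆ Finset.univ.erase i := Finset.erase_subset _ _
    have p1 : ∑ j ∈ (Finset.univ.erase i).erase a, max (H j) 0 ≤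
        ∑ j ∈ Finset.univ.erase a, max (H j) 0 :=
      Finset.sum_le_sum_of_subset_of_nonneg s1 fun _ _ _ => le_max_right _ _
    have p2 : ∑ j ∈ (Finset.univ.erase i).erase a, max (-H j) 0 ≤
        ∑ j ∈ Finset.univ.erase i, max (-H j) 0 :=
      Finset.sum_le_sum_of_subset_of_nonneg s2 fun _ _ _ => le_max_right _ _
    have p3 : ∑ j ∈ (Finset.univ.erase i).erase a, max (H j) 0 ≤
        ∑ j ∈ Finset.univ.erase i, max (H j) 0 :=
      Finset.sum_le_sum_of_subset_of_nonneg s2 fun _ _ _ => le_max_right _ _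
    have p4 : ∑ j ∈ (Finset.univ.erase i).erase a, max (-H j) 0 ≤
        ∑ j ∈ Finset.univ.erase a, max (-H j) 0 :=
      Finset.sum_le_sum_of_subset_of_nonneg s1 fun _ _ _ => le_max_right _ _
    apply le_min
    · rw [e1]; linarith
    · rw [e1]; linarith
  · have c3 := chain key (fun _ => (0:ℝ)) (fun j => |H j| /
        (1 + Jf (fun θ => |Bf G1 G2 G2' μ θ|) G2 (v j)) ^ 2)
      (fun j => -(1 / (1 + Jf (fun θ => |Bf G1 G2 G2' μ θ|) G2 (v j)))) hkinj
      (fun x y hxy => ?_)
      Finset.univ Finset.univ_nonempty i (Finset.mem_univ _) hi a (Finset.mem_univ _) ha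
    · rw [Finset.sum_const_zero, zero_add] at c3
      refine c3.trans ?_
      have n1 := Jf_nonneg (hv i) (β := fun θ => |Bf G1 G2 G2' μ θ|) (fun θ => abs_nonneg _)
      have n2 := Jf_nonneg (hv a) (β := fun θ => |Bf G1 G2 G2' μ θ|) (fun θ => abs_nonneg _)
      have m1 : 1 / (1 + Jf (fun θ => |Bf G1 G2 G2' μ θ|) G2 (v i)) ≤ 1 := by
        rw [div_le_one (by linarith)]; linarith
      have m2 : 0 ≤ 1 / (1 + Jf (fun θ => |Bf G1 G2 G2' μ θ|) G2 (v a)) := by positivity
      linarith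
    · have habs := hinc x y hxy
      set Jx := Jf (fun θ => |Bf G1 G2 G2' μ θ|) G2 (v x) with hJx
      set Jy := Jf (fun θ => |Bf G1 G2 G2' μ θ|) G2 (v y) with hJy
      have n1 : 0 ≤ Jx := Jf_nonneg (hv x) (fun θ => abs_nonneg _)
      have n2 : 0 ≤ Jy := Jf_nonneg (hv y) (fun θ => abs_nonneg _)
      have hJ : 0 ≤ Jy - Jx := le_trans (abs_nonneg _) habs
      have e1 : -(1 / (1 + Jy)) - -(1 / (1 + Jx)) = (Jy - Jx) / ((1 + Jx) * (1 + Jy)) := by
        field_simp
        ring
      rw [zero_add, e1]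
      rw [div_le_div_iff₀ (by positivity) (by positivity)]
      have f1 : |H y| * ((1 + Jx) * (1 + Jy)) ≤ (Jy - Jx) * ((1 + Jx) * (1 + Jy)) :=
        mul_le_mul_of_nonneg_right habs (by positivity)
      have f2 : (Jy - Jx) * ((1 + Jx) * (1 + Jy)) ≤ (Jy - Jx) * (1 + Jy) ^ 2 := by
        apply mul_le_mul_of_nonneg_left _ hJ
        nlinarith
      linarith
  · have c4 := chain key (fun _ => (0:ℝ)) (fun j => |H j|)
      (fun j => Jf (fun θ => |Bf G1 G2 G2' μ θ|) G2 (v j)) hkinj
      (fun x y hxy => by rw [zero_add]; exact hinc x y hxy)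
      Finset.univ Finset.univ_nonempty i (Finset.mem_univ _) hi a (Finset.mem_univ _) ha
    rw [Finset.sum_const_zero, zero_add] at c4
    rw [← Finset.add_sum_erase Finset.univ (fun j => |Hf G1 G2 G2' μ (v j)|) (Finset.mem_univ i)]
    have h1 : |Hf G1 G2 G2' μ (v i)| ≤
        4 * Real.pi * |μ| + Jf (fun θ => |Bf G1 G2 G2' μ θ|) G2 (v i) := by
      have h2 : |Jf (Bf G1 G2 G2' μ) G2 (v i)| ≤
          Jf (fun θ => |Bf G1 G2 G2' μ θ|) G2 (v i) := by
        unfold Jf
        refine (intervalIntegral.abs_integral_le_integral_abs (by positivity)).trans_eq ?_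
        congr 1
        funext θ
        rw [abs_div, abs_of_pos ((hv i).pos' θ)]
      unfold Hf
      have h3 : |4 * Real.pi * μ| = 4 * Real.pi * |μ| := by
        rw [abs_mul, abs_of_pos (by positivity : (0:ℝ) < 4 * Real.pi)]
      have h4 := abs_sub (-(4 * Real.pi * μ)) (Jf (Bf G1 G2 G2' μ) G2 (v i))
      rw [abs_neg, h3] at h4
      linarith
    have c5 : ∑ x ∈ Finset.univ.erase i, |Hf G1 G2 G2' μ (v x)| ≤
      Jf (fun θ => |Bf G1 G2 G2' μ θ|) G2 (v a) - Jf (fun θ => |Bf G1 G2 G2' μ θ|) G2 (v i) := c4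
    linarith

end

end Pool.Agent.TH234.QH
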