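import Pool.Agent.TH234.QH.Fam

/-! # Quadratic systems: the total hyperbolicity of the closed orbits around a focus

The sum of the absolute values of the characteristic exponents of all closed orbits around a focus
of a quadratic system is bounded explicitly; in particular so is the number of the closed orbits
with exponent at least `ε` in absolute value. -/

open Set MeasureTheory Topology Filter intervalIntegral

namespace Pool.Agent.TH234.QH

open Pool.Agent.H811R2.Quad

/-- The quadratic vector field `z ↦ (μ + i) z + A z² + B z z̄ + C z̄²` on `ℂ = ℝ²`. -/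
noncomputable def field (μ : ℝ) (A B C z : ℂ) : ℂ :=
  ((μ : ℂ) + Complex.I) * z + A * z ^ 2 + B * (z * (starRingEnd ℂ) z) + C * (starRingEnd ℂ) z ^ 2

/-- The divergence of a vector field on `ℂ = ℝ²`. -/
noncomputable def divergence (X : ℂ → ℂ) (z : ℂ) : ℝ :=
  (fderiv ℝ X z 1).re + (fderiv ℝ X z Complex.I).im

/-- `γ` is a closed orbit of `z' = X z` with minimal period `T` which surrounds the origin. -/
structure ClosedOrbit (X : ℂ → ℂ) (γ : ℝ → ℂ) (T : ℝ) : Prop where
  pos : 0 < T
  solution : ∀ t, HasDerivAt γ (X (γ t)) t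
  periodic : ∀ t, γ (t + T) = γ t
  minimal : ∀ s ∈ Ioo 0 T, γ s ≠ γ 0
  avoids : (0 : ℂ) ∉ Set.range γ
  surrounds : Bornology.IsBounded (connectedComponentIn (Set.range γ)ᶜ 0)

/-- The characteristic exponent of a closed orbit: the integral of the divergence over one period.
Its exponential is the derivative of the return map. -/
noncomputable def exponent (X : ℂ → ℂ) (γ : ℝ → ℂ) (T : ℝ) : ℝ :=
  ∫ t in (0:ℝ)..T, divergence X (γ t)

/-- The function `b(z) = div X - 4 r'/r + 2 μ θ'` (polar coordinates `z = r exp(iθ)`). -/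
noncomputable def b (μ : ℝ) (X : ℂ → ℂ) (z : ℂ) : ℝ :=
  divergence X z - 4 * (X z / z).re + 2 * μ * (X z / z).im

lemma div_field (μ : ℝ) (A B C z : ℂ) : divergence (field μ A B C) z =
    2 * μ + 4 * (A * z).re + 2 * (B * (starRingEnd ℂ) z).re := by
  have hz : HasFDerivAt (fun z : ℂ => z) (ContinuousLinearMap.id ℝ ℂ) z := hasFDerivAt_id z
  have hc : HasFDerivAt (fun z : ℂ => (starRingEnd ℂ) z)
      ((Complex.conjCLE : ℂ ≃L[ℝ] ℂ) : ℂ →L[ℝ] ℂ) z :=
    ((Complex.conjCLE : ℂ ≃L[ℝ] ℂ) : ℂ →L[ℝ] ℂ).hasFDerivAt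
  have h := (((hz.const_mul ((μ : ℂ) + Complex.I)).add ((hz.pow 2).const_mul A)).add
    ((hz.mul hc).const_mul B)).add ((hc.pow 2).const_mul C)
  have h' : HasFDerivAt (field μ A B C) _ z := h
  unfold divergence
  rw [h'.fderiv]
  simp
  ring

/-- the radial trigonometric polynomial -/
noncomputable def g1 (A B C : ℂ) : ℝ → ℝ := trig (A.re + B.re) (B.im - A.im) C.re C.im

/-- the angular trigonometric polynomial -/
noncomputable def g2 (A B C : ℂ) : ℝ → ℝ := trig (A.im + B.im) (A.re - B.re) C.im (-C.re)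

/-- its derivative -/
noncomputable def g2' (A B C : ℂ) : ℝ → ℝ :=
  trig (A.re - B.re) (-(A.im + B.im)) (3 * -C.re) (-(3 * C.im))

lemma exp_I (x : ℝ) : Complex.exp (x * Complex.I) = ⟨Real.cos x, Real.sin x⟩ := by
  apply Complex.ext
  · rw [Complex.exp_ofReal_mul_I_re]
  · rw [Complex.exp_ofReal_mul_I_im]

lemma cos3 (x : ℝ) : Real.cos (3 * x) = Real.cos x ^ 3 - 3 * Real.cos x * Real.sin x ^ 2 := by
  rw [Real.cos_three_mul]
  have := Real.sin_sq_add_cos_sq x
  linear_combination (3 * Real.cos x) * this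

lemma sin3 (x : ℝ) : Real.sin (3 * x) = 3 * Real.cos x ^ 2 * Real.sin x - Real.sin x ^ 3 := by
  rw [Real.sin_three_mul]
  have := Real.sin_sq_add_cos_sq x
  linear_combination (-3 * Real.sin x) * this

lemma g_complex (A B C : ℂ) (θ : ℝ) : ((g1 A B C θ : ℝ) : ℂ) + ((g2 A B C θ : ℝ) : ℂ) * Complex.I =
    A * Complex.exp (θ * Complex.I) + B * (starRingEnd ℂ) (Complex.exp (θ * Complex.I)) +
      C * (starRingEnd ℂ) (Complex.exp (θ * Complex.I)) ^ 3 := by
  unfold g1 g2 trig
  rw [exp_I, cos3, sin3]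
  set c := Real.cos θ
  set s := Real.sin θ
  apply Complex.ext <;>
  · simp only [Complex.add_re, Complex.mul_re, Complex.ofReal_re, Complex.ofReal_im,
      Complex.I_re, Complex.I_im, Complex.add_im, Complex.mul_im, Complex.conj_re,
      Complex.conj_im, pow_succ, pow_zero, one_mul, mul_zero, mul_one, sub_zero,
      add_zero, zero_add]
    ring

lemma exp_conj (θ : ℝ) :
    (starRingEnd ℂ) (Complex.exp (θ * Complex.I)) * Complex.exp (θ * Complex.I) = 1 := by
  rw [exp_I]
  have h1 := Real.sin_sq_add_cos_sq θ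
  apply Complex.ext
  · simp only [Complex.mul_re, Complex.conj_re, Complex.conj_im, Complex.one_re]
    linarith [h1]
  · simp only [Complex.mul_im, Complex.conj_re, Complex.conj_im, Complex.one_im]
    ring

lemma field_polar (μ : ℝ) (A B C : ℂ) (r θ : ℝ) :
    field μ A B C (r * Complex.exp (θ * Complex.I)) =
      ((μ + r ^ 1 * g1 A B C θ : ℝ) + (1 + r ^ 1 * g2 A B C θ : ℝ) * Complex.I) *
        (r * Complex.exp (θ * Complex.I)) := by
  have h1 := g_complex A B C θ
  have h2 := exp_conj θ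
  unfold field
  rw [map_mul, Complex.conj_ofReal]
  push_cast
  set e := Complex.exp (θ * Complex.I)
  set f := (starRingEnd ℂ) e
  rw [pow_one]
  linear_combination (-(r : ℂ) ^ 2 * e) * h1 + (-(C * (r:ℂ) ^ 2 * f ^ 2)) * h2

/-- the divergence in polar coordinates -/
lemma div_polar (μ : ℝ) (A B C : ℂ) (r θ : ℝ) :
    divergence (field μ A B C) (r * Complex.exp (θ * Complex.I)) =
      2 * μ + r * (3 * g1 A B C θ + g2' A B C θ) := by
  rw [div_field, map_mul, Complex.conj_ofReal, exp_I]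
  unfold g1 g2' trig
  simp only [Complex.mul_re, Complex.mul_im, Complex.ofReal_re, Complex.ofReal_im,
    Complex.conj_re, Complex.conj_im]
  ring

lemma contDiff_g1 (A B C : ℂ) : ContDiff ℝ 1 (g1 A B C) := by
  unfold g1 trig; fun_prop

lemma contDiff_g2 (A B C : ℂ) : ContDiff ℝ 1 (g2 A B C) := by
  unfold g2 trig; fun_prop

lemma deriv_g2 (A B C : ℂ) (θ : ℝ) : HasDerivAt (g2 A B C) (g2' A B C θ) θ := by
  refine (trig_deriv _ _ _ _ θ).congr_deriv ?_
  rfl

lemma continuous_field (μ : ℝ) (A B C : ℂ) : Continuous (field μ A B C) := by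
  unfold field
  have := Complex.continuous_conj
  fun_prop

/-- `b` on the orbit of a graph -/
lemma b_graph {μ : ℝ} {A B C : ℂ} {γ : ℝ → ℂ} {T : ℝ} {v ϑ : ℝ → ℝ}
    (h : Graph 1 (field μ A B C) (g1 A B C) (g2 A B C) μ γ T v ϑ) (t : ℝ) :
    b μ (field μ A B C) (γ t) = -Bf (g1 A B C) (g2 A B C) (g2' A B C) μ (ϑ t) / v (ϑ t) := by
  have hpos := h.sol.pos (ϑ t)
  have hz : γ t = ((v (ϑ t))⁻¹ : ℝ) * Complex.exp (ϑ t * Complex.I) := by
    rw [h.polar t, Complex.exp_add]
    congr 1
    rw [← Complex.ofReal_exp]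
    congr 1
    rw [Nat.cast_one, div_one, Real.exp_neg, Real.exp_log hpos]
  unfold b
  rw [h.vel t]
  have hd : divergence (field μ A B C) (γ t) =
      2 * μ + (v (ϑ t))⁻¹ * (3 * g1 A B C (ϑ t) + g2' A B C (ϑ t)) := by
    rw [hz, div_polar]
  rw [hd]
  simp only [Complex.add_im, Complex.mul_im, Complex.ofReal_re, Complex.I_re, mul_zero,
    Complex.ofReal_im, Complex.I_im, mul_one, zero_add, add_zero, Complex.add_re, Complex.mul_re,
    sub_self]
  unfold Bf
  have := hpos.ne'
  field_simp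
  ring

/-- the pointwise bound for `b` -/
lemma abs_b_le (μ : ℝ) (A B C z : ℂ) (hz : z ≠ 0) : |b μ (field μ A B C) z| ≤
    (2 * ‖B‖ + 4 * ‖C‖ + 2 * |μ| * (‖A‖ + ‖B‖ + ‖C‖)) * ‖z‖ := by
  set w := (starRingEnd ℂ) z with hw
  have hnw : ‖w‖ = ‖z‖ := Complex.norm_conj z
  have hq : field μ A B C z / z = (μ : ℂ) + Complex.I + (A * z + B * w + C * w ^ 2 / z) := by
    unfold field
    field_simp
    ring
  unfold b
  rw [hq, div_field]
  have e1 : ((μ : ℂ) + Complex.I + (A * z + B * w + C * w ^ 2 / z)).re =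
      μ + (A * z).re + (B * w).re + (C * w ^ 2 / z).re := by
    simp only [Complex.add_re, Complex.ofReal_re, Complex.I_re]
    ring
  have e2 : ((μ : ℂ) + Complex.I + (A * z + B * w + C * w ^ 2 / z)).im =
      1 + (A * z).im + (B * w).im + (C * w ^ 2 / z).im := by
    simp only [Complex.add_im, Complex.ofReal_im, Complex.I_im]
    ring
  rw [e1, e2]
  have hA : |(A * z).im| ≤ ‖A‖ * ‖z‖ := (Complex.abs_im_le_norm _).trans (norm_mul _ _).le
  have hB : |(B * w).im| ≤ ‖B‖ * ‖z‖ := by
    rw [← hnw]; exact (Complex.abs_im_le_norm _).trans (norm_mul _ _).le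
  have hB' : |(B * w).re| ≤ ‖B‖ * ‖z‖ := by
    rw [← hnw]; exact (Complex.abs_re_le_norm _).trans (norm_mul _ _).le
  have hn : ‖C * w ^ 2 / z‖ = ‖C‖ * ‖z‖ := by
    rw [norm_div, norm_mul, norm_pow, hnw]
    have := norm_ne_zero_iff.2 hz
    field_simp
  have hC : |(C * w ^ 2 / z).im| ≤ ‖C‖ * ‖z‖ := (Complex.abs_im_le_norm _).trans hn.le
  have hC' : |(C * w ^ 2 / z).re| ≤ ‖C‖ * ‖z‖ := (Complex.abs_re_le_norm _).trans hn.le
  have e3 : 2 * μ + 4 * (A * z).re + 2 * (B * w).re - 4 * (μ + (A * z).re + (B * w).re +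
      (C * w ^ 2 / z).re) + 2 * μ * (1 + (A * z).im + (B * w).im + (C * w ^ 2 / z).im) =
      -(2 * (B * w).re) - 4 * (C * w ^ 2 / z).re +
        2 * μ * ((A * z).im + (B * w).im + (C * w ^ 2 / z).im) := by ring
  rw [e3]
  have h1 : |(A * z).im + (B * w).im + (C * w ^ 2 / z).im| ≤ (‖A‖ + ‖B‖ + ‖C‖) * ‖z‖ := by
    have := abs_add_three (A * z).im (B * w).im (C * w ^ 2 / z).im
    linarith
  have h2 : |2 * μ * ((A * z).im + (B * w).im + (C * w ^ 2 / z).im)| ≤
      2 * |μ| * ((‖A‖ + ‖B‖ + ‖C‖) * ‖z‖) := by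
    rw [abs_mul, abs_mul, abs_two]
    exact mul_le_mul_of_nonneg_left h1 (by positivity)
  have h3 := abs_add_three (-(2 * (B * w).re)) (-(4 * (C * w ^ 2 / z).re))
    (2 * μ * ((A * z).im + (B * w).im + (C * w ^ 2 / z).im))
  rw [abs_neg, abs_neg, abs_mul, abs_mul 4, abs_two,
    abs_of_pos (by norm_num : (0:ℝ) < 4)] at h3
  rw [sub_eq_add_neg]
  linarith

theorem main (μ : ℝ) (A B C : ℂ) {ι : Type} [Fintype ι] [Nonempty ι] (γ : ι → ℝ → ℂ)
    (T : ι → ℝ) (hγ : ∀ i, ClosedOrbit (field μ A B C) (γ i) (T i))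
    (hne : ∀ i j, i ≠ j → Set.range (γ i) ≠ Set.range (γ j)) :
    (∃ i₀ i₁ : ι,
      (∀ S : Finset ι, i₀ ∉ S → i₁ ∉ S →
        ∑ i ∈ S, |exponent (field μ A B C) (γ i) (T i)| ≤
          min (∫ t in (0:ℝ)..T i₁, max (b μ (field μ A B C) (γ i₁ t)) 0)
            (∫ t in (0:ℝ)..T i₁, max (-b μ (field μ A B C) (γ i₁ t)) 0)) ∧
      (∀ S : Finset ι, i₀ ∉ S →
        ∑ i ∈ S, |exponent (field μ A B C) (γ i) (T i)| /
          (1 + ∫ t in (0:ℝ)..T i, |b μ (field μ A B C) (γ i t)|) ^ 2 ≤ 1) ∧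
      ∑ i, |exponent (field μ A B C) (γ i) (T i)| ≤
        4 * Real.pi * |μ| + ∫ t in (0:ℝ)..T i₁, |b μ (field μ A B C) (γ i₁ t)|) ∧
    ∀ ε R P : ℝ, 0 < ε → (∀ i, ε ≤ |exponent (field μ A B C) (γ i) (T i)|) →
      (∀ i t, ‖γ i t‖ ≤ R) → (∀ i, T i ≤ P) →
      (Fintype.card ι : ℝ) ≤
        2 + (2 * ‖B‖ + 4 * ‖C‖ + 2 * |μ| * (‖A‖ + ‖B‖ + ‖C‖)) * R * P / (2 * ε) := by
  classical
  have hg1 := contDiff_g1 A B C
  have hg2 := contDiff_g2 A B C
  have hper2 : ∀ θ, g2 A B C (θ + 2 * Real.pi) = g2 A B C θ := fun θ => trig_per _ _ _ _ θ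
  have hper1 : ∀ θ, g1 A B C (θ + 2 * Real.pi) = g1 A B C θ := fun θ => trig_per _ _ _ _ θ
  have hper2' : ∀ θ, g2' A B C (θ + 2 * Real.pi) = g2' A B C θ := fun θ => trig_per _ _ _ _ θ
  have hg2'c : Continuous (g2' A B C) := continuous_trig _ _ _ _
  have hgr : ∀ i, ∃ v ϑ, Graph 1 (field μ A B C) (g1 A B C) (g2 A B C) μ (γ i) (T i) v ϑ := by
    intro i
    obtain ⟨h1, h2, h3, h4, h5, h6⟩ := hγ i
    exact exists_graph (continuous_field μ A B C) one_pos hg1 hg2 (fun θ => trig_anti _ _ _ _ θ)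
      (fun θ => trig_anti _ _ _ _ θ) (fun r θ _ => field_polar μ A B C r θ)
      ⟨h1, h2, h3, h4, h5, h6⟩
  choose v ϑ hG using hgr
  have hP : ∀ i, PSol (g1 A B C) (g2 A B C) μ (v i) := by
    intro i
    have := (hG i).sol
    simpa using this
  have hϑc : ∀ i, Continuous (ϑ i) := fun i =>
    continuous_iff_continuousAt.2 fun t => ((hG i).dθ t).continuousAt
  have hvc : ∀ i, Continuous (v i) := fun i => (hP i).cont
  have hBc : Continuous (Bf (g1 A B C) (g2 A B C) (g2' A B C) μ) := by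
    have := hg1.continuous
    have := hg2.continuous
    unfold Bf
    fun_prop
  have hBper : ∀ θ, Bf (g1 A B C) (g2 A B C) (g2' A B C) μ (θ + 2 * Real.pi) =
      Bf (g1 A B C) (g2 A B C) (g2' A B C) μ θ := by
    intro θ
    unfold Bf
    rw [hper1, hper2, hper2']
  have hinj : Function.Injective v := by
    intro i j hij
    by_contra hne'
    apply hne i j hne'
    have hr : ∀ k, Set.range (γ k) = curve 1 (v k) := by
      intro k
      have hs : Function.Surjective (ϑ k) := by
        intro θ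
        obtain ⟨n, hn⟩ := exists_nat_gt (|θ - ϑ k 0| / (2 * Real.pi))
        rw [div_lt_iff₀ (by positivity)] at hn
        have h1 := iter_shift (hG k).turn n 0
        have h2 := iter_shift_neg (hG k).turn n 0
        have h3 := abs_le.1 hn.le
        exact mem_range_of_exists_le_of_exists_ge (hϑc k) ⟨0 - n * T k, by linarith [h3.1]⟩
          ⟨0 + n * T k, by linarith [h3.2]⟩
      unfold curve
      ext z
      constructor
      · rintro ⟨t, rfl⟩
        exact ⟨ϑ k t, ((hG k).polar t).symm⟩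
      · rintro ⟨θ, rfl⟩
        obtain ⟨t, rfl⟩ := hs θ
        exact ⟨t, (hG k).polar t⟩
    rw [hr, hr, hij]
  -- the integrals
  have hb : ∀ i t, b μ (field μ A B C) (γ i t) =
      -Bf (g1 A B C) (g2 A B C) (g2' A B C) μ (ϑ i t) / v i (ϑ i t) := fun i t => b_graph (hG i) t
  have hint : ∀ i (β : ℝ → ℝ), Continuous β → (∀ θ, β (θ + 2 * Real.pi) = β θ) →
      ∫ t in (0:ℝ)..T i, β (ϑ i t) / v i (ϑ i t) = Jf β (g2 A B C) (v i) :=
    fun i β hβ hβp => (hG i).integral hg2.continuous hper2 hβ hβp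
  have hJabs : ∀ i, ∫ t in (0:ℝ)..T i, |b μ (field μ A B C) (γ i t)| =
      Jf (fun θ => |Bf (g1 A B C) (g2 A B C) (g2' A B C) μ θ|) (g2 A B C) (v i) := by
    intro i
    rw [← hint i _ hBc.abs (fun θ => by simp only [hBper])]
    congr 1
    funext t
    rw [hb, abs_div, abs_neg, abs_of_pos ((hP i).pos _)]
  have hmaxdiv : ∀ x y : ℝ, 0 < y → max (x / y) 0 = max x 0 / y := by
    intro x y hy
    rcases le_total 0 x with h | h
    · rw [max_eq_left h, max_eq_left (div_nonneg h hy.le)]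
    · rw [max_eq_right h, max_eq_right (div_nonpos_of_nonpos_of_nonneg h hy.le), zero_div]
  have hJpos : ∀ i, ∫ t in (0:ℝ)..T i, max (b μ (field μ A B C) (γ i t)) 0 =
      Jf (fun θ => max (-Bf (g1 A B C) (g2 A B C) (g2' A B C) μ θ) 0) (g2 A B C) (v i) := by
    intro i
    rw [← hint i (fun θ => max (-Bf (g1 A B C) (g2 A B C) (g2' A B C) μ θ) 0)
      (hBc.neg.max continuous_const) (fun θ => by simp only [hBper])]
    congr 1
    funext t
    rw [hb, hmaxdiv _ _ ((hP i).pos _)]
  have hJneg : ∀ i, ∫ t in (0:ℝ)..T i, max (-b μ (field μ A B C) (γ i t)) 0 =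
      Jf (fun θ => max (Bf (g1 A B C) (g2 A B C) (g2' A B C) μ θ) 0) (g2 A B C) (v i) := by
    intro i
    rw [← hint i (fun θ => max (Bf (g1 A B C) (g2 A B C) (g2' A B C) μ θ) 0)
      (hBc.max continuous_const) (fun θ => by simp only [hBper])]
    congr 1
    funext t
    rw [hb, ← neg_div, neg_neg, hmaxdiv _ _ ((hP i).pos _)]
  have hexp : ∀ i, exponent (field μ A B C) (γ i) (T i) =
      Hf (g1 A B C) (g2 A B C) (g2' A B C) μ (v i) := by
    intro i
    have hre : ∀ t, (field μ A B C (γ i t) / γ i t).re =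
        μ + g1 A B C (ϑ i t) / v i (ϑ i t) := by
      intro t; rw [(hG i).vel t]
      simp only [Complex.add_re, Complex.mul_re, Complex.ofReal_re, Complex.I_re, mul_zero,
        Complex.ofReal_im, Complex.I_im, mul_one, sub_self, add_zero]
    have him : ∀ t, (field μ A B C (γ i t) / γ i t).im =
        1 + g2 A B C (ϑ i t) / v i (ϑ i t) := by
      intro t; rw [(hG i).vel t]
      simp only [Complex.add_im, Complex.mul_im, Complex.ofReal_re, Complex.I_re, mul_zero,
        Complex.ofReal_im, Complex.I_im, mul_one, zero_add, add_zero]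
    have hvne : ∀ t, v i (ϑ i t) ≠ 0 := fun t => ((hP i).pos _).ne'
    have c1 : Continuous fun t => (field μ A B C (γ i t) / γ i t).re := by
      simp only [hre]
      exact continuous_const.add (((hg1.continuous).comp (hϑc i)).div
        ((hvc i).comp (hϑc i)) hvne)
    have c2 : Continuous fun t => (field μ A B C (γ i t) / γ i t).im := by
      simp only [him]
      exact continuous_const.add (((hg2.continuous).comp (hϑc i)).div
        ((hvc i).comp (hϑc i)) hvne)
    have c3 : Continuous fun t => b μ (field μ A B C) (γ i t) := by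
      simp only [hb]
      exact ((hBc.comp (hϑc i)).neg).div ((hvc i).comp (hϑc i)) hvne
    have e1 : ∀ t, divergence (field μ A B C) (γ i t) = b μ (field μ A B C) (γ i t) +
        (4 * (field μ A B C (γ i t) / γ i t).re -
          2 * μ * (field μ A B C (γ i t) / γ i t).im) := by
      intro t; unfold b; ring
    have c4 : Continuous fun t => 4 * (field μ A B C (γ i t) / γ i t).re :=
      continuous_const.mul c1
    have c5 : Continuous fun t => 2 * μ * (field μ A B C (γ i t) / γ i t).im :=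
      continuous_const.mul c2
    have c6 : Continuous fun t => 4 * (field μ A B C (γ i t) / γ i t).re -
        2 * μ * (field μ A B C (γ i t) / γ i t).im := c4.sub c5
    unfold exponent
    simp only [e1]
    rw [intervalIntegral.integral_add (c3.intervalIntegrable _ _) (c6.intervalIntegrable _ _),
      intervalIntegral.integral_sub (c4.intervalIntegrable _ _)
      (c5.intervalIntegrable _ _), intervalIntegral.integral_const_mul,
      intervalIntegral.integral_const_mul, (hG i).radial, (hG i).angle hg2.continuous]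
    have e2 : ∫ t in (0:ℝ)..T i, b μ (field μ A B C) (γ i t) =
        -Jf (Bf (g1 A B C) (g2 A B C) (g2' A B C) μ) (g2 A B C) (v i) := by
      rw [← hint i _ hBc hBper, ← intervalIntegral.integral_neg]
      congr 1
      funext t
      rw [hb]
      ring
    rw [e2]
    unfold Hf
    ring
  obtain ⟨i₀, i₁, f1, f2, f3⟩ := family hg1.continuous (deriv_g2 A B C) hg2'c hper2 v hP hinj
  have key1 : ∀ S : Finset ι, i₀ ∉ S → i₁ ∉ S →
        ∑ i ∈ S, |exponent (field μ A B C) (γ i) (T i)| ≤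
          min (∫ t in (0:ℝ)..T i₁, max (b μ (field μ A B C) (γ i₁ t)) 0)
            (∫ t in (0:ℝ)..T i₁, max (-b μ (field μ A B C) (γ i₁ t)) 0) := by
    intro S h0 h1
    rw [hJpos, hJneg, min_comm]
    refine le_trans ?_ f1
    simp only [hexp]
    apply Finset.sum_le_sum_of_subset_of_nonneg
    · intro x hx
      simp only [Finset.mem_erase, Finset.mem_univ, and_true]
      exact ⟨fun h => h1 (h ▸ hx), fun h => h0 (h ▸ hx)⟩
    · intro x _ _
      exact abs_nonneg _
  refine ⟨⟨i₀, i₁, key1, ?_, ?_⟩, ?_⟩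
  · intro S h0
    refine le_trans ?_ f2
    simp only [hexp, hJabs]
    apply Finset.sum_le_sum_of_subset_of_nonneg
    · intro x hx
      simp only [Finset.mem_erase, Finset.mem_univ, and_true]
      exact fun h => h0 (h ▸ hx)
    · intro x _ _
      positivity
  · simp only [hexp, hJabs]
    exact f3
  · intro ε R P hε hh hR hPP
    set K := 2 * ‖B‖ + 4 * ‖C‖ + 2 * |μ| * (‖A‖ + ‖B‖ + ‖C‖) with hK
    have hK0 : 0 ≤ K := by positivity
    have hR0 : 0 ≤ R := (norm_nonneg _).trans (hR i₁ 0)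
    have hT0 : 0 < T i₁ := (hγ i₁).pos
    -- the smaller part is at most half of the integral of `|b|`
    have h1 : (∫ t in (0:ℝ)..T i₁, max (b μ (field μ A B C) (γ i₁ t)) 0) +
        (∫ t in (0:ℝ)..T i₁, max (-b μ (field μ A B C) (γ i₁ t)) 0) =
        ∫ t in (0:ℝ)..T i₁, |b μ (field μ A B C) (γ i₁ t)| := by
      have c3 : Continuous fun t => b μ (field μ A B C) (γ i₁ t) := by
        simp only [hb]
        exact ((hBc.comp (hϑc i₁)).neg).div ((hvc i₁).comp (hϑc i₁)) fun t => ((hP i₁).pos _).ne'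
      have c4 : Continuous fun t => max (b μ (field μ A B C) (γ i₁ t)) 0 :=
        c3.max continuous_const
      have c5 : Continuous fun t => max (-b μ (field μ A B C) (γ i₁ t)) 0 :=
        c3.neg.max continuous_const
      rw [← intervalIntegral.integral_add (c4.intervalIntegrable _ _) (c5.intervalIntegrable _ _)]
      congr 1
      funext t
      rcases le_total 0 (b μ (field μ A B C) (γ i₁ t)) with h | h
      · rw [abs_of_nonneg h, max_eq_left h, max_eq_right (by linarith)]; ring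
      · rw [abs_of_nonpos h, max_eq_right h, max_eq_left (by linarith)]; ring
    have h2 : ∫ t in (0:ℝ)..T i₁, |b μ (field μ A B C) (γ i₁ t)| ≤ K * R * P := by
      have h3 : ∀ t, |b μ (field μ A B C) (γ i₁ t)| ≤ K * R := by
        intro t
        refine (abs_b_le μ A B C (γ i₁ t) fun h => (hγ i₁).avoids ⟨t, h⟩).trans ?_
        exact mul_le_mul_of_nonneg_left (hR i₁ t) hK0
      have h4 := intervalIntegral.norm_integral_le_of_norm_le_const (a := 0) (b := T i₁)
        (f := fun t => |b μ (field μ A B C) (γ i₁ t)|) (C := K * R)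
        (fun t _ => by rw [Real.norm_eq_abs, abs_abs]; exact h3 t)
      rw [sub_zero, abs_of_pos hT0, Real.norm_eq_abs] at h4
      have h5 := le_abs_self (∫ t in (0:ℝ)..T i₁, |b μ (field μ A B C) (γ i₁ t)|)
      have h6 : K * R * T i₁ ≤ K * R * P := mul_le_mul_of_nonneg_left (hPP i₁) (by positivity)
      linarith
    have h7 := key1 ((Finset.univ.erase i₀).erase i₁) (by simp) (by simp)
    have h8 : min (∫ t in (0:ℝ)..T i₁, max (b μ (field μ A B C) (γ i₁ t)) 0)
        (∫ t in (0:ℝ)..T i₁, max (-b μ (field μ A B C) (γ i₁ t)) 0) ≤ K * R * P / 2 := by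
      have a1 := min_le_left (∫ t in (0:ℝ)..T i₁, max (b μ (field μ A B C) (γ i₁ t)) 0)
        (∫ t in (0:ℝ)..T i₁, max (-b μ (field μ A B C) (γ i₁ t)) 0)
      have a2 := min_le_right (∫ t in (0:ℝ)..T i₁, max (b μ (field μ A B C) (γ i₁ t)) 0)
        (∫ t in (0:ℝ)..T i₁, max (-b μ (field μ A B C) (γ i₁ t)) 0)
      linarith
    have h9 : (((Finset.univ.erase i₀).erase i₁).card : ℝ) * ε ≤
        ∑ i ∈ (Finset.univ.erase i₀).erase i₁, |exponent (field μ A B C) (γ i) (T i)| := by
      rw [← nsmul_eq_mul]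
      exact Finset.card_nsmul_le_sum _ _ _ fun x _ => hh x
    have h10 : (Fintype.card ι : ℝ) ≤ ((Finset.univ.erase i₀).erase i₁).card + 2 := by
      have a1 : (Finset.univ : Finset ι).card ≤ (Finset.univ.erase i₀).card + 1 := by
        rw [Finset.card_erase_of_mem (Finset.mem_univ _)]; omega
      have a2 : (Finset.univ.erase i₀).card ≤ ((Finset.univ.erase i₀).erase i₁).card + 1 := by
        have := Finset.pred_card_le_card_erase (a := i₁) (s := Finset.univ.erase i₀)
        omega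
      have a3 : Fintype.card ι ≤ ((Finset.univ.erase i₀).erase i₁).card + 2 := by
        rw [← Finset.card_univ]; omega
      exact_mod_cast a3
    have h11 : (((Finset.univ.erase i₀).erase i₁).card : ℝ) ≤ K * R * P / (2 * ε) := by
      rw [le_div_iff₀ (by positivity)]
      nlinarith
    linarith

end Pool.Agent.TH234.QH
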