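import Pool.Agent.H811R2.QScalar
import Pool.Agent.TH234.QH.Chain

/-! Two nested periodic graphs of the same system: the exponents are controlled by the increments
of monotone integrals. -/

open Set MeasureTheory Topology Filter intervalIntegral

namespace Pool.Agent.TH234.QH

open Pool.Agent.H811R2.Quad

noncomputable section

variable {G1 G2 G2' : ℝ → ℝ} {μ : ℝ}

/-- the coefficient `B = G₁ - 2 μ G₂ - G₂'` -/
def Bf (G1 G2 G2' : ℝ → ℝ) (μ θ : ℝ) : ℝ := G1 θ - 2 * μ * G2 θ - G2' θ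

/-- the integral of `β / (v + G₂)` -/
def Jf (β G2 v : ℝ → ℝ) : ℝ := ∫ θ in (0:ℝ)..(2 * Real.pi), β θ / (v θ + G2 θ)

/-- the integral of `2 β / (v₁ + v₂ + 2 G₂)` -/
def Kf (β G2 v1 v2 : ℝ → ℝ) : ℝ :=
  ∫ θ in (0:ℝ)..(2 * Real.pi), β θ * (2 / ((v1 θ + G2 θ) + (v2 θ + G2 θ)))

/-- the exponent of a periodic graph -/
def Hf (G1 G2 G2' : ℝ → ℝ) (μ : ℝ) (v : ℝ → ℝ) : ℝ :=
  -(4 * Real.pi * μ) - Jf (Bf G1 G2 G2' μ) G2 v

lemma mean_zero (hG1 : Continuous G1) (hG2 : ∀ θ, HasDerivAt G2 (G2' θ) θ)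
    (hG2' : Continuous G2') (hper2 : ∀ θ, G2 (θ + 2 * Real.pi) = G2 θ)
    {v1 v2 : ℝ → ℝ} (h1 : PSol G1 G2 μ v1) (h2 : PSol G1 G2 μ v2) (hlt : ∀ θ, v2 θ < v1 θ) :
    Kf (Bf G1 G2 G2' μ) G2 v1 v2 = -(4 * Real.pi * μ) := by
  have hG2c : Continuous G2 := continuous_iff_continuousAt.2 fun θ => (hG2 θ).continuousAt
  set f : ℝ → ℝ := fun θ => Real.log ((v1 θ + G2 θ) ^ 2 - (v2 θ + G2 θ) ^ 2) with hf
  have hpos : ∀ θ, 0 < (v1 θ + G2 θ) ^ 2 - (v2 θ + G2 θ) ^ 2 := by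
    intro θ
    have a1 := h1.pos' θ
    have a2 := h2.pos' θ
    have a3 := hlt θ
    nlinarith
  have hd : ∀ θ, HasDerivAt f
      (-(2 * μ) - Bf G1 G2 G2' μ θ * (2 / ((v1 θ + G2 θ) + (v2 θ + G2 θ)))) θ := by
    intro θ
    have e1 := (h1.deriv θ).add (hG2 θ)
    have e2 := (h2.deriv θ).add (hG2 θ)
    have e3 := ((e1.pow 2).sub (e2.pow 2)).log (hpos θ).ne'
    refine e3.congr_deriv ?_
    have a1 := (h1.pos' θ).ne'
    have a2 := (h2.pos' θ).ne'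
    have a3 : v1 θ + G2 θ + (v2 θ + G2 θ) ≠ 0 := by
      have := h1.pos' θ
      have := h2.pos' θ
      positivity
    have a4 : (v1 θ + G2 θ) ^ 2 - (v2 θ + G2 θ) ^ 2 ≠ 0 := (hpos θ).ne'
    unfold Bf
    simp only [Pi.add_apply, Nat.add_one_sub_one, pow_one, Nat.cast_ofNat, Pi.pow_apply, Pi.sub_apply]
    rw [div_eq_iff a4]
    field_simp
    ring
  have hc1 := h1.cont
  have hc2 := h2.cont
  have hBc : Continuous (Bf G1 G2 G2' μ) := by unfold Bf; fun_prop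
  have hden : ∀ θ, (v1 θ + G2 θ) + (v2 θ + G2 θ) ≠ 0 := fun θ => by
    have := h1.pos' θ
    have := h2.pos' θ
    positivity
  have hcont : Continuous fun θ => Bf G1 G2 G2' μ θ * (2 / ((v1 θ + G2 θ) + (v2 θ + G2 θ))) :=
    hBc.mul (continuous_const.div (by fun_prop) hden)
  have hint := integral_eq_sub_of_hasDerivAt (a := 0) (b := 2 * Real.pi) (fun θ _ => hd θ)
    ((continuous_const.sub hcont).intervalIntegrable _ _)
  have hend : f (2 * Real.pi) = f 0 := by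
    have p1 := h1.per 0
    have p2 := h2.per 0
    have p3 := hper2 0
    rw [zero_add] at p1 p2 p3
    simp only [hf, p1, p2, p3]
  rw [hend, sub_self, intervalIntegral.integral_sub (by simp) (hcont.intervalIntegrable _ _),
    intervalIntegral.integral_const, sub_zero, smul_eq_mul] at hint
  unfold Kf
  linarith

/-- comparison of the three weights -/
lemma weights {v1 v2 : ℝ → ℝ} (h1 : PSol G1 G2 μ v1) (h2 : PSol G1 G2 μ v2)
    (hlt : ∀ θ, v2 θ < v1 θ) (θ : ℝ) :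
    1 / (v1 θ + G2 θ) ≤ 2 / ((v1 θ + G2 θ) + (v2 θ + G2 θ)) ∧
      2 / ((v1 θ + G2 θ) + (v2 θ + G2 θ)) ≤ 1 / (v2 θ + G2 θ) := by
  have a1 := h1.pos' θ
  have a2 := h2.pos' θ
  have a3 := hlt θ
  constructor
  · rw [div_le_div_iff₀ a1 (by positivity)]; linarith
  · rw [div_le_div_iff₀ (by positivity) a2]; linarith

lemma cont_J {β : ℝ → ℝ} (hβ : Continuous β) (hG2c : Continuous G2) {v : ℝ → ℝ}
    (h : PSol G1 G2 μ v) : Continuous fun θ => β θ / (v θ + G2 θ) :=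
  hβ.div (h.cont.add hG2c) fun θ => (h.pos' θ).ne'

lemma cont_K {β : ℝ → ℝ} (hβ : Continuous β) (hG2c : Continuous G2) {v1 v2 : ℝ → ℝ}
    (h1 : PSol G1 G2 μ v1) (h2 : PSol G1 G2 μ v2) :
    Continuous fun θ => β θ * (2 / ((v1 θ + G2 θ) + (v2 θ + G2 θ))) := by
  have c1 := h1.cont
  have c2 := h2.cont
  refine hβ.mul (continuous_const.div (by fun_prop) fun θ => ?_)
  have := h1.pos' θ
  have := h2.pos' θ
  positivity

/-- `K(β) - J(β, v₁) ≤ K(β⁺) - J(β⁺, v₁)`, where `v₁` is the inner graph -/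
lemma inner_le {β γ : ℝ → ℝ} (hβ : Continuous β) (hγ : Continuous γ) (hG2c : Continuous G2)
    (hle : ∀ θ, β θ ≤ γ θ) {v1 v2 : ℝ → ℝ}
    (h1 : PSol G1 G2 μ v1) (h2 : PSol G1 G2 μ v2) (hlt : ∀ θ, v2 θ < v1 θ) :
    Kf β G2 v1 v2 - Jf β G2 v1 ≤ Kf γ G2 v1 v2 - Jf γ G2 v1 := by
  unfold Kf Jf
  rw [← intervalIntegral.integral_sub ((cont_K hβ hG2c h1 h2).intervalIntegrable _ _)
    ((cont_J hβ hG2c h1).intervalIntegrable _ _),
    ← intervalIntegral.integral_sub ((cont_K hγ hG2c h1 h2).intervalIntegrable _ _)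
    ((cont_J hγ hG2c h1).intervalIntegrable _ _)]
  apply intervalIntegral.integral_mono_on (by positivity)
    (((cont_K hβ hG2c h1 h2).sub (cont_J hβ hG2c h1)).intervalIntegrable _ _)
    (((cont_K hγ hG2c h1 h2).sub (cont_J hγ hG2c h1)).intervalIntegrable _ _)
  intro θ _
  obtain ⟨w1, -⟩ := weights h1 h2 hlt θ
  simp only [Pi.sub_apply]
  rw [div_eq_mul_one_div (β θ), div_eq_mul_one_div (γ θ), ← mul_sub, ← mul_sub]
  exact mul_le_mul_of_nonneg_right (hle θ) (by linarith)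

/-- `J(β, v₂) - K(β) ≤ J(γ, v₂) - K(γ)`, where `v₂` is the outer graph -/
lemma outer_le {β γ : ℝ → ℝ} (hβ : Continuous β) (hγ : Continuous γ) (hG2c : Continuous G2)
    (hle : ∀ θ, β θ ≤ γ θ) {v1 v2 : ℝ → ℝ}
    (h1 : PSol G1 G2 μ v1) (h2 : PSol G1 G2 μ v2) (hlt : ∀ θ, v2 θ < v1 θ) :
    Jf β G2 v2 - Kf β G2 v1 v2 ≤ Jf γ G2 v2 - Kf γ G2 v1 v2 := by
  unfold Kf Jf
  rw [← intervalIntegral.integral_sub ((cont_J hβ hG2c h2).intervalIntegrable _ _)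
    ((cont_K hβ hG2c h1 h2).intervalIntegrable _ _),
    ← intervalIntegral.integral_sub ((cont_J hγ hG2c h2).intervalIntegrable _ _)
    ((cont_K hγ hG2c h1 h2).intervalIntegrable _ _)]
  apply intervalIntegral.integral_mono_on (by positivity)
    (((cont_J hβ hG2c h2).sub (cont_K hβ hG2c h1 h2)).intervalIntegrable _ _)
    (((cont_J hγ hG2c h2).sub (cont_K hγ hG2c h1 h2)).intervalIntegrable _ _)
  intro θ _
  obtain ⟨-, w2⟩ := weights h1 h2 hlt θ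
  simp only [Pi.sub_apply]
  rw [div_eq_mul_one_div (β θ), div_eq_mul_one_div (γ θ), ← mul_sub, ← mul_sub]
  exact mul_le_mul_of_nonneg_right (hle θ) (by linarith)

lemma Jf_neg (β G2 v : ℝ → ℝ) : Jf (fun θ => -β θ) G2 v = -Jf β G2 v := by
  unfold Jf
  rw [← intervalIntegral.integral_neg]
  congr 1
  funext θ
  ring

lemma Kf_neg (β G2 v1 v2 : ℝ → ℝ) : Kf (fun θ => -β θ) G2 v1 v2 = -Kf β G2 v1 v2 := by
  unfold Kf
  rw [← intervalIntegral.integral_neg]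
  congr 1
  funext θ
  ring

/-- the basic step: `γ ≥ B` and `γ ≥ 0` -/
lemma step (hG1 : Continuous G1) (hG2 : ∀ θ, HasDerivAt G2 (G2' θ) θ)
    (hG2' : Continuous G2') (hper2 : ∀ θ, G2 (θ + 2 * Real.pi) = G2 θ)
    {v1 v2 : ℝ → ℝ} (h1 : PSol G1 G2 μ v1) (h2 : PSol G1 G2 μ v2) (hlt : ∀ θ, v2 θ < v1 θ)
    {γ : ℝ → ℝ} (hγ : Continuous γ) (h0 : ∀ θ, 0 ≤ γ θ) (hB : ∀ θ, Bf G1 G2 G2' μ θ ≤ γ θ) :
    max (Hf G1 G2 G2' μ v1) 0 + max (-Hf G1 G2 G2' μ v2) 0 ≤ Jf γ G2 v2 - Jf γ G2 v1 := by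
  have hG2c : Continuous G2 := continuous_iff_continuousAt.2 fun θ => (hG2 θ).continuousAt
  have hBc : Continuous (Bf G1 G2 G2' μ) := by unfold Bf; fun_prop
  have hm := mean_zero hG1 hG2 hG2' hper2 h1 h2 hlt
  have i1 := inner_le hBc hγ hG2c hB h1 h2 hlt
  have i2 := outer_le hBc hγ hG2c hB h1 h2 hlt
  have i3 := inner_le (continuous_const (y := (0:ℝ))) hγ hG2c h0 h1 h2 hlt
  have i4 := outer_le (continuous_const (y := (0:ℝ))) hγ hG2c h0 h1 h2 hlt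
  have z1 : Jf (fun _ => (0:ℝ)) G2 v1 = 0 := by simp [Jf]
  have z2 : Jf (fun _ => (0:ℝ)) G2 v2 = 0 := by simp [Jf]
  have z3 : Kf (fun _ => (0:ℝ)) G2 v1 v2 = 0 := by simp [Kf]
  rw [z1, z3] at i3
  rw [z2, z3] at i4
  unfold Hf
  have m1 : max (-(4 * Real.pi * μ) - Jf (Bf G1 G2 G2' μ) G2 v1) 0 ≤
      Kf γ G2 v1 v2 - Jf γ G2 v1 := max_le (by linarith) (by linarith)
  have m2 : max (-(-(4 * Real.pi * μ) - Jf (Bf G1 G2 G2' μ) G2 v2)) 0 ≤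
      Jf γ G2 v2 - Kf γ G2 v1 v2 := max_le (by linarith) (by linarith)
  linarith

/-- the same with the signs exchanged: `γ ≥ -B` and `γ ≥ 0` -/
lemma step' (hG1 : Continuous G1) (hG2 : ∀ θ, HasDerivAt G2 (G2' θ) θ)
    (hG2' : Continuous G2') (hper2 : ∀ θ, G2 (θ + 2 * Real.pi) = G2 θ)
    {v1 v2 : ℝ → ℝ} (h1 : PSol G1 G2 μ v1) (h2 : PSol G1 G2 μ v2) (hlt : ∀ θ, v2 θ < v1 θ)
    {γ : ℝ → ℝ} (hγ : Continuous γ) (h0 : ∀ θ, 0 ≤ γ θ) (hB : ∀ θ, -Bf G1 G2 G2' μ θ ≤ γ θ) :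
    max (-Hf G1 G2 G2' μ v1) 0 + max (Hf G1 G2 G2' μ v2) 0 ≤ Jf γ G2 v2 - Jf γ G2 v1 := by
  have hG2c : Continuous G2 := continuous_iff_continuousAt.2 fun θ => (hG2 θ).continuousAt
  have hBc : Continuous (Bf G1 G2 G2' μ) := by unfold Bf; fun_prop
  have hm := mean_zero hG1 hG2 hG2' hper2 h1 h2 hlt
  have i1 := inner_le hBc.neg hγ hG2c hB h1 h2 hlt
  have i2 := outer_le hBc.neg hγ hG2c hB h1 h2 hlt
  have i3 := inner_le (continuous_const (y := (0:ℝ))) hγ hG2c h0 h1 h2 hlt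
  have i4 := outer_le (continuous_const (y := (0:ℝ))) hγ hG2c h0 h1 h2 hlt
  have z1 : Jf (fun _ => (0:ℝ)) G2 v1 = 0 := by simp [Jf]
  have z2 : Jf (fun _ => (0:ℝ)) G2 v2 = 0 := by simp [Jf]
  have z3 : Kf (fun _ => (0:ℝ)) G2 v1 v2 = 0 := by simp [Kf]
  have e1 : Jf (-Bf G1 G2 G2' μ) G2 v1 = -Jf (Bf G1 G2 G2' μ) G2 v1 := Jf_neg _ _ _
  have e2 : Jf (-Bf G1 G2 G2' μ) G2 v2 = -Jf (Bf G1 G2 G2' μ) G2 v2 := Jf_neg _ _ _
  have e3 : Kf (-Bf G1 G2 G2' μ) G2 v1 v2 = -Kf (Bf G1 G2 G2' μ) G2 v1 v2 := Kf_neg _ _ _ _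
  rw [e1, e3] at i1
  rw [e2, e3] at i2
  rw [z1, z3] at i3
  rw [z2, z3] at i4
  unfold Hf
  have m1 : max (-(-(4 * Real.pi * μ) - Jf (Bf G1 G2 G2' μ) G2 v1)) 0 ≤
      Kf γ G2 v1 v2 - Jf γ G2 v1 := max_le (by linarith) (by linarith)
  have m2 : max (-(4 * Real.pi * μ) - Jf (Bf G1 G2 G2' μ) G2 v2) 0 ≤
      Jf γ G2 v2 - Kf γ G2 v1 v2 := max_le (by linarith) (by linarith)
  linarith

end

end Pool.Agent.TH234.QH
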