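import Pool.Agent.H811R2.QPlane
import Pool.Agent.TH234.QH.Pair

/-! Closed orbits around the origin as periodic graphs, with the time. -/

open Set MeasureTheory Topology Filter intervalIntegral

namespace Pool.Agent.TH234.QH

open Pool.Agent.H811R2.Quad

noncomputable section

/-- `γ` is a closed orbit of `z' = V z` with minimal period `T`, which surrounds the origin. -/
structure Closed (V : ℂ → ℂ) (γ : ℝ → ℂ) (T : ℝ) : Prop where
  pos : 0 < T
  deriv : ∀ t, HasDerivAt γ (V (γ t)) t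
  per : ∀ t, γ (t + T) = γ t
  min : ∀ s ∈ Ioo 0 T, γ s ≠ γ 0
  avoid : (0:ℂ) ∉ Set.range γ
  bdd : Bornology.IsBounded (connectedComponentIn (Set.range γ)ᶜ 0)

/-- the data of a graph -/
structure Graph (m : ℕ) (V : ℂ → ℂ) (G1 G2 : ℝ → ℝ) (μ : ℝ) (γ : ℝ → ℂ) (T : ℝ) (v ϑ : ℝ → ℝ) :
    Prop where
  sol : PSol (fun θ => m * G1 θ) G2 (m * μ) v
  dθ : ∀ t, HasDerivAt ϑ ((v (ϑ t) + G2 (ϑ t)) / v (ϑ t)) t
  turn : ∀ t, ϑ (t + T) = ϑ t + 2 * Real.pi
  polar : ∀ t, γ t = Complex.exp (((-Real.log (v (ϑ t)) / m : ℝ) : ℂ) + ϑ t * Complex.I)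
  vel : ∀ t, V (γ t) / γ t = ((μ + G1 (ϑ t) / v (ϑ t) : ℝ) : ℂ) +
    ((1 + G2 (ϑ t) / v (ϑ t) : ℝ) : ℂ) * Complex.I
  radial : ∫ t in (0:ℝ)..T, (V (γ t) / γ t).re = 0

theorem exists_graph {V : ℂ → ℂ} (hVc : Continuous V) {m : ℕ} (hm : 0 < m) {G1 G2 : ℝ → ℝ}
    (hG1 : ContDiff ℝ 1 G1) (hG2 : ContDiff ℝ 1 G2)
    (hanti1 : ∀ θ, G1 (θ + Real.pi) = -G1 θ) (hanti2 : ∀ θ, G2 (θ + Real.pi) = -G2 θ) {μ : ℝ}
    (hV : ∀ r θ : ℝ, 0 < r → V (r * Complex.exp (θ * Complex.I)) =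
      ((μ + r ^ m * G1 θ : ℝ) + (1 + r ^ m * G2 θ : ℝ) * Complex.I) *
        (r * Complex.exp (θ * Complex.I)))
    {γ : ℝ → ℂ} {T : ℝ} (hC : Closed V γ T) :
    ∃ v ϑ, Graph m V G1 G2 μ γ T v ϑ := by
  obtain ⟨hT0, hγ, hγT, hmin, h0C, hbd⟩ := hC
  have hγ0 : ∀ t, γ t ≠ 0 := fun t h => h0C ⟨t, h⟩
  have hγc : Continuous γ := continuous_iff_continuousAt.2 fun t => (hγ t).continuousAt
  have hmR : (0:ℝ) < m := by exact_mod_cast hm
  set W : ℝ → ℂ := fun t => V (γ t) / γ t with hW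
  have hWc : Continuous W := (hVc.comp hγc).div hγc hγ0
  obtain ⟨ϑ, ρ, dϑ, dρ, hpol⟩ := exists_lift hWc hγ0 (fun t => by
    simp only [hW]; rw [div_mul_cancel₀ _ (hγ0 t)]; exact hγ t)
  have hpol' : ∀ t, γ t = (Real.exp (ρ t) : ℝ) * Complex.exp (ϑ t * Complex.I) := by
    intro t
    rw [hpol t, Complex.exp_add, Complex.ofReal_exp]
  have hWt : ∀ t, W t = ((μ + Real.exp (ρ t) ^ m * G1 (ϑ t) : ℝ) : ℂ) +
      ((1 + Real.exp (ρ t) ^ m * G2 (ϑ t) : ℝ) : ℂ) * Complex.I := by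
    intro t
    simp only [hW]
    rw [div_eq_iff (hγ0 t), hpol' t]
    exact hV _ _ (Real.exp_pos _)
  have hexpm : ∀ t, Real.exp (ρ t) ^ m = Real.exp (m * ρ t) := fun t => (Real.exp_nat_mul _ _).symm
  set u : ℝ → ℝ := fun t => m * ρ t with hu
  have hL : Lft (fun θ => m * G1 θ) G2 (m * μ) ϑ u := by
    refine ⟨fun t => ?_, fun t => ?_⟩
    · refine (dϑ t).congr_deriv ?_
      rw [hWt, hexpm]
      simp only [Complex.add_im, Complex.mul_im, Complex.ofReal_re, Complex.I_re, mul_zero,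
        Complex.ofReal_im, Complex.I_im, mul_one, zero_add, add_zero, hu]
    · refine ((dρ t).const_mul (m:ℝ)).congr_deriv ?_
      rw [hWt, hexpm]
      simp only [Complex.add_re, Complex.mul_re, Complex.ofReal_re, Complex.I_re, mul_zero,
        Complex.ofReal_im, Complex.I_im, mul_one, sub_self, add_zero]
      ring
  have hG1m : ContDiff ℝ 1 (fun θ => (m:ℝ) * G1 θ) := contDiff_const.mul hG1
  have hper1 : ∀ θ, G1 (θ + 2 * Real.pi) = G1 θ := fun θ => by
    rw [show θ + 2 * Real.pi = (θ + Real.pi) + Real.pi by ring, hanti1, hanti1, neg_neg]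
  have hper2 : ∀ θ, G2 (θ + 2 * Real.pi) = G2 θ := fun θ => by
    rw [show θ + 2 * Real.pi = (θ + Real.pi) + Real.pi by ring, hanti2, hanti2, neg_neg]
  have hpern : ∀ (n : ℕ) θ, G2 (θ - n * (2 * Real.pi)) = G2 θ := by
    intro n θ
    have hp : Function.Periodic G2 (2 * Real.pi) := hper2
    exact hp.sub_nat_mul_eq n
  have hperz : ∀ (n : ℤ) θ, G2 (θ + n * (2 * Real.pi)) = G2 θ := by
    intro n θ
    have hp : Function.Periodic G2 (2 * Real.pi) := hper2
    exact (hp.int_mul n) θ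
  -- periodicity of the lift
  have hnorm : ∀ t, ‖γ t‖ = Real.exp (ρ t) := by
    intro t
    rw [hpol' t, norm_mul, Complex.norm_real, Complex.norm_exp_ofReal_mul_I, mul_one,
      Real.norm_of_nonneg (Real.exp_pos _).le]
  have hρT : ∀ t, ρ (t + T) = ρ t := by
    intro t
    have h1 := hnorm (t + T)
    rw [hγT, hnorm] at h1
    exact (Real.exp_injective h1).symm
  have huT : ∀ t, u (t + T) = u t := fun t => by simp only [hu, hρT]
  have hWT : ∀ t, W (t + T) = W t := fun t => by simp only [hW, hγT]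
  obtain ⟨κ, hκ⟩ : ∃ κ : ℝ, ∀ t, ϑ (t + T) = ϑ t + κ := by
    have hd : ∀ t, HasDerivAt (fun t => ϑ (t + T) - ϑ t) 0 t := by
      intro t
      refine (((dϑ (t + T)).comp_add_const t T).sub (dϑ t)).congr_deriv ?_
      rw [hWT, sub_self]
    refine ⟨ϑ (0 + T) - ϑ 0, fun t => ?_⟩
    have := is_const_of_deriv_eq_zero (f := fun t => ϑ (t + T) - ϑ t)
      (fun t => (hd t).differentiableAt) (fun t => (hd t).deriv) t 0
    linarith
  obtain ⟨k, hk⟩ : ∃ k : ℤ, κ = k * (2 * Real.pi) := by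
    have h1 : Complex.exp (ϑ (0 + T) * Complex.I) = Complex.exp (ϑ 0 * Complex.I) := by
      have e1 := hpol' (0 + T)
      have e2 := hpol' 0
      rw [hγT, hρT, e2] at e1
      exact (mul_left_cancel₀ (by exact_mod_cast (Real.exp_pos (ρ 0)).ne') e1).symm
    rw [Complex.exp_eq_exp_iff_exists_int] at h1
    obtain ⟨k, hk⟩ := h1
    refine ⟨k, ?_⟩
    have h2 := congrArg Complex.im hk
    simp at h2
    have h3 := hκ 0
    rw [zero_add] at h3
    linarith
  obtain ⟨w, hw⟩ : ∃ w, 0 ≤ G2 w := by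
    rcases le_total 0 (G2 0) with h | h
    · exact ⟨0, h⟩
    · refine ⟨Real.pi, ?_⟩
      have := hanti2 0
      rw [zero_add] at this
      rw [this]; linarith
  have hκ0 : 0 ≤ κ := hL.wind_nonneg hpern hw hT0 hκ
  rcases eq_or_lt_of_le hκ0 with hκz | hκpos
  · -- the winding number vanishes: the ray of angle `w` is free
    exfalso
    have hκ' : ∀ t, ϑ (t + T) = ϑ t := fun t => by rw [hκ, ← hκz, add_zero]
    set ray : Set ℂ := (fun r : ℝ => (r : ℂ) * Complex.exp (w * Complex.I)) '' Ici 0 with hray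
    have hsub : ray ⊆ (Set.range γ)ᶜ := by
      rintro z ⟨r, hr, rfl⟩ ⟨t, ht⟩
      have hr0 : (0:ℝ) ≤ r := hr
      have hr1 : 0 < r := by
        rcases eq_or_lt_of_le hr0 with h | h
        · exfalso
          apply hγ0 t
          rw [ht, ← h]; simp
        · exact h
      have h1 := hnorm t
      have h2 : ‖γ t‖ = r := by
        rw [ht]
        simp only
        rw [norm_mul, Complex.norm_real, Complex.norm_exp_ofReal_mul_I, mul_one,
          Real.norm_of_nonneg hr0]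
      have h3 := hpol' t
      rw [ht, ← h1, h2] at h3
      simp only at h3
      have h4 := mul_left_cancel₀ (by exact_mod_cast hr1.ne') h3
      rw [Complex.exp_eq_exp_iff_exists_int] at h4
      obtain ⟨n, hn⟩ := h4
      have h5 := congrArg Complex.im hn
      simp at h5
      have h6 : 0 ≤ G2 (w + (-n : ℤ) * (2 * Real.pi)) := by rw [hperz]; exact hw
      apply hL.free_ray h6 hT0 hκ' t
      push_cast
      linarith
    have hconn : IsPreconnected ray := by
      apply IsPreconnected.image (convex_Ici 0).isPreconnected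
      exact (Complex.continuous_ofReal.mul continuous_const).continuousOn
    have h0ray : (0:ℂ) ∈ ray := ⟨0, self_mem_Ici, by simp⟩
    have hsub2 := hconn.subset_connectedComponentIn h0ray hsub
    have hbd2 := hbd.subset hsub2
    obtain ⟨R, hR⟩ := hbd2.exists_norm_le
    have h7 := hR ((|R| + 1 : ℝ) * Complex.exp (w * Complex.I))
      ⟨|R| + 1, by simp only [mem_Ici]; positivity, rfl⟩
    rw [norm_mul, Complex.norm_real, Complex.norm_exp_ofReal_mul_I, mul_one,
      Real.norm_of_nonneg (by positivity)] at h7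
    have := le_abs_self R
    linarith
  · -- positive winding number
    have hkpos : 0 < k := by
      rw [hk] at hκpos
      by_contra hc
      push Not at hc
      have : (k:ℝ) ≤ 0 := by exact_mod_cast hc
      have := mul_nonpos_of_nonpos_of_nonneg this (by positivity : (0:ℝ) ≤ 2 * Real.pi)
      linarith
    obtain ⟨k', hk'⟩ := Int.eq_ofNat_of_zero_le hkpos.le
    have hk'0 : 0 < k' := by omega
    have hκ'' : ∀ t, ϑ (t + T) = ϑ t + (k' : ℝ) * (2 * Real.pi) := by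
      intro t
      rw [hκ, hk, hk']
      push_cast
      ring
    obtain ⟨v, hv, hvu, hsurj⟩ := hL.exists_PSol hG1m hG2 (fun θ => by simp only [hper1]) hper2
      hk'0 hT0 hκ'' huT
    have hlog : ∀ t, -Real.log (v (ϑ t)) / m = ρ t := by
      intro t
      rw [hvu, Real.log_exp, neg_neg]
      simp only [hu]
      field_simp
    have hpolar : ∀ t, γ t =
        Complex.exp (((-Real.log (v (ϑ t)) / m : ℝ) : ℂ) + ϑ t * Complex.I) := by
      intro t
      rw [hlog, ← hpol t]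
    have hϑc : Continuous ϑ := continuous_iff_continuousAt.2 fun t => (dϑ t).continuousAt
    -- the winding number is one
    have hk1 : k' = 1 := by
      by_contra hne
      have hk2 : (2:ℝ) ≤ k' := by exact_mod_cast (by omega : 2 ≤ k')
      have hT1 := hκ'' 0
      rw [zero_add] at hT1
      have hpi := Real.pi_pos
      have hlt : ϑ 0 + 2 * Real.pi < ϑ T := by
        rw [hT1]; nlinarith
      obtain ⟨s, hs, hs2⟩ := intermediate_value_Icc hT0.le hϑc.continuousOn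
        (show ϑ 0 + 2 * Real.pi ∈ Icc (ϑ 0) (ϑ T) from ⟨by linarith, hlt.le⟩)
      have hs0 : s ≠ 0 := fun h => by rw [h] at hs2; linarith
      have hsT : s ≠ T := fun h => by rw [h] at hs2; linarith
      apply hmin s ⟨lt_of_le_of_ne hs.1 (Ne.symm hs0), lt_of_le_of_ne hs.2 hsT⟩
      rw [hpolar s, hpolar 0, hs2, hv.per]
      push_cast
      rw [show (-(Real.log (v (ϑ 0)) : ℂ) / (m:ℂ)) + ((ϑ 0 : ℂ) + 2 * (Real.pi:ℂ)) * Complex.I =
        (-(Real.log (v (ϑ 0)) : ℂ) / (m:ℂ) + (ϑ 0 : ℂ) * Complex.I) +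
          2 * (Real.pi:ℂ) * Complex.I by ring]
      exact Complex.exp_periodic _
    subst hk1
    have hinv : ∀ t, Real.exp (ρ t) ^ m = (v (ϑ t))⁻¹ := by
      intro t
      rw [hexpm, hvu, Real.exp_neg, inv_inv]
    have hvel : ∀ t, W t = ((μ + G1 (ϑ t) / v (ϑ t) : ℝ) : ℂ) +
        ((1 + G2 (ϑ t) / v (ϑ t) : ℝ) : ℂ) * Complex.I := by
      intro t
      rw [hWt, hinv, inv_mul_eq_div, inv_mul_eq_div]
    refine ⟨v, ϑ, hv, fun t => ?_, fun t => ?_, hpolar, hvel, ?_⟩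
    · refine (dϑ t).congr_deriv ?_
      rw [hvel]
      have := (hv.pos (ϑ t)).ne'
      simp only [Complex.add_im, Complex.mul_im, Complex.ofReal_re, Complex.I_re, mul_zero,
        Complex.ofReal_im, Complex.I_im, mul_one, zero_add, add_zero]
      field_simp
    · rw [hκ'']; simp
    · have hi := integral_eq_sub_of_hasDerivAt (a := 0) (b := T) (fun t _ => dρ t)
        ((Complex.continuous_re.comp hWc).intervalIntegrable _ _)
      have := hρT 0
      rw [zero_add] at this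
      rw [this, sub_self] at hi
      exact hi

/-- time integrals as angle integrals -/
lemma Graph.integral {m : ℕ} {V : ℂ → ℂ} {G1 G2 : ℝ → ℝ} {μ : ℝ} {γ : ℝ → ℂ} {T : ℝ}
    {v ϑ : ℝ → ℝ} (h : Graph m V G1 G2 μ γ T v ϑ) (hG2 : Continuous G2)
    (hper2 : ∀ θ, G2 (θ + 2 * Real.pi) = G2 θ) {β : ℝ → ℝ} (hβ : Continuous β)
    (hβper : ∀ θ, β (θ + 2 * Real.pi) = β θ) :
    ∫ t in (0:ℝ)..T, β (ϑ t) / v (ϑ t) = Jf β G2 v := by
  have hϑc : Continuous ϑ := continuous_iff_continuousAt.2 fun t => (h.dθ t).continuousAt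
  have hvc := h.sol.cont
  have hcont : Continuous fun θ => β θ / (v θ + G2 θ) :=
    hβ.div (hvc.add hG2) fun θ => (h.sol.pos' θ).ne'
  have hcont' : Continuous fun t => (v (ϑ t) + G2 (ϑ t)) / v (ϑ t) :=
    ((hvc.comp hϑc).add (hG2.comp hϑc)).div (hvc.comp hϑc) fun t => (h.sol.pos (ϑ t)).ne'
  have h1 := integral_comp_mul_deriv (a := 0) (b := T) (f := ϑ)
    (f' := fun t => (v (ϑ t) + G2 (ϑ t)) / v (ϑ t)) (g := fun θ => β θ / (v θ + G2 θ))
    (fun t _ => h.dθ t) hcont'.continuousOn hcont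
  have h2 : ∀ t, ((fun θ => β θ / (v θ + G2 θ)) ∘ ϑ) t * ((v (ϑ t) + G2 (ϑ t)) / v (ϑ t)) =
      β (ϑ t) / v (ϑ t) := by
    intro t
    have a1 := (h.sol.pos (ϑ t)).ne'
    have a2 := (h.sol.pos' (ϑ t)).ne'
    simp only [Function.comp_apply]
    field_simp
  simp only [h2] at h1
  rw [h1]
  have hT := h.turn 0
  rw [zero_add] at hT
  rw [hT]
  have hp : Function.Periodic (fun θ => β θ / (v θ + G2 θ)) (2 * Real.pi) := by
    intro θ
    simp only [hβper, hper2, h.sol.per]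
  have h3 := hp.intervalIntegral_add_eq (ϑ 0) 0
  rw [h3, zero_add]
  rfl

lemma Graph.angle {m : ℕ} {V : ℂ → ℂ} {G1 G2 : ℝ → ℝ} {μ : ℝ} {γ : ℝ → ℂ} {T : ℝ}
    {v ϑ : ℝ → ℝ} (h : Graph m V G1 G2 μ γ T v ϑ) (hG2 : Continuous G2) :
    ∫ t in (0:ℝ)..T, (V (γ t) / γ t).im = 2 * Real.pi := by
  have hϑc : Continuous ϑ := continuous_iff_continuousAt.2 fun t => (h.dθ t).continuousAt
  have hvc := h.sol.cont
  have hcont' : Continuous fun t => (v (ϑ t) + G2 (ϑ t)) / v (ϑ t) :=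
    ((hvc.comp hϑc).add (hG2.comp hϑc)).div (hvc.comp hϑc) fun t => (h.sol.pos (ϑ t)).ne'
  have h1 : ∀ t, (V (γ t) / γ t).im = (v (ϑ t) + G2 (ϑ t)) / v (ϑ t) := by
    intro t
    rw [h.vel]
    have := (h.sol.pos (ϑ t)).ne'
    simp only [Complex.add_im, Complex.mul_im, Complex.ofReal_re, Complex.I_re, mul_zero,
      Complex.ofReal_im, Complex.I_im, mul_one, zero_add, add_zero]
    field_simp
  simp only [h1]
  rw [integral_eq_sub_of_hasDerivAt (fun t _ => h.dθ t) (hcont'.intervalIntegrable _ _)]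
  have hT := h.turn 0
  rw [zero_add] at hT
  rw [hT]
  ring

end

end Pool.Agent.TH234.QH
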